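import Pool.Agent.LUB.Stmts

/-!
# Squad LUB, row SPF: specialization of the factorization
-/

set_option autoImplicit false

open Polynomial

namespace Pool.Agent.LUB.H31

theorem hom_eq {R : Type} [CommRing R] {φ ψ : ℤ[X] →+* R} (h : φ X = ψ X) : φ = ψ :=
  Polynomial.ringHom_ext' (Subsingleton.elim _ _) h

theorem spr_map {R S : Type} [CommRing R] [CommRing S] (φ : R →+* S) (f : ℤ[X][X]) (T : R) :
    (spr f T).map φ = spr f (φ T) := by
  unfold spr
  rw [Polynomial.map_map]
  congr 1
  apply hom_eq
  simp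

theorem sp_map {S : Type} [CommRing S] (f : ℤ[X][X]) (t : ℤ) :
    (sp f t).map (Int.castRingHom S) = spr f (t : S) := by
  unfold spr sp
  rw [Polynomial.map_map]
  congr 1
  apply hom_eq
  simp

theorem spf : SpfStmt := by
  intro Ω _ T f n θ hf s t hs
  have hval : Function.Injective (Algebra.adjoin ℤ ({T} ∪ Set.range θ)).val.toRingHom :=
    Subtype.val_injective
  have hT : (Algebra.adjoin ℤ ({T} ∪ Set.range θ)).val.toRingHom
      ⟨T, Algebra.subset_adjoin (by simp)⟩ = T := rfl
  refine ⟨?_, ?_⟩
  · have h1 : spr f (⟨T, Algebra.subset_adjoin (by simp)⟩ :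
        Algebra.adjoin ℤ ({T} ∪ Set.range θ)) =
        ∏ j, (X - C (⟨θ j, Algebra.subset_adjoin (by simp)⟩ :
          Algebra.adjoin ℤ ({T} ∪ Set.range θ))) := by
      apply Polynomial.map_injective _ hval
      rw [spr_map, hT, hf, Polynomial.map_prod]
      refine Finset.prod_congr rfl fun j _ => ?_
      rw [Polynomial.map_sub, Polynomial.map_X, Polynomial.map_C]
      rfl
    have h2 := congrArg (Polynomial.map s) h1
    rw [spr_map, hs, ← sp_map, Polynomial.map_prod] at h2
    rw [h2]
    refine Finset.prod_congr rfl fun j _ => ?_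
    rw [Polynomial.map_sub, Polynomial.map_X, Polynomial.map_C]
  · intro u j x hx
    have h1 : x = (spr u (⟨T, Algebra.subset_adjoin (by simp)⟩ :
        Algebra.adjoin ℤ ({T} ∪ Set.range θ))).eval ⟨θ j, Algebra.subset_adjoin (by simp)⟩ := by
      apply Subtype.val_injective
      rw [hx, ← hT, ← spr_map]
      exact Polynomial.eval_map_apply (Algebra.adjoin ℤ ({T} ∪ Set.range θ)).val.toRingHom
        ⟨θ j, Algebra.subset_adjoin (by simp)⟩
    rw [h1, ← Polynomial.eval_map_apply s, spr_map, hs, ← sp_map]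
    rw [Polynomial.eval_map, Polynomial.aeval_def]
    rfl

end Pool.Agent.LUB.H31
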