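import Pool.Agent.LUB.Stmts
import Pool.Agent.Helper31_LUB.SPF

/-!
# Squad LUB, row CLB: the bound in one class
-/

set_option autoImplicit false

open Polynomial NumberField
open Pool.Agent.Helper85_Leo (LeopoldtAt)

namespace Pool.Agent.LUB.H31

theorem sp_monic {f : ℤ[X][X]} (hf : f.Monic) (t : ℤ) : (sp f t).Monic := hf.map _

theorem sp_deg {f : ℤ[X][X]} (hf : f.Monic) (t : ℤ) : (sp f t).natDegree = f.natDegree :=
  hf.natDegree_map _

theorem logMod_map {p : ℕ} [Fact p.Prime] {S S' : Type} [CommRing S] [CommRing S']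
    [Algebra ℤ_[p] S] [Algebra ℤ_[p] S'] (ψ : S →ₐ[ℤ_[p]] S') {F w l : S[X]}
    (h : LogMod p F w l) :
    LogMod p (F.map ψ.toRingHom) (w.map ψ.toRingHom) (l.map ψ.toRingHom) := by
  intro N
  obtain ⟨a, b, h⟩ := h N
  refine ⟨a.map ψ.toRingHom, b.map ψ.toRingHom, ?_⟩
  have h1 := congrArg (Polynomial.map ψ.toRingHom) h
  rw [Polynomial.map_add, Polynomial.map_add, Polynomial.map_mul, Polynomial.map_mul,
    Polynomial.map_sum, Polynomial.map_C] at h1
  have h2 : ψ.toRingHom ((p : S) ^ N) = (p : S') ^ N := by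
    rw [map_pow, map_natCast]
  have h3 : ∀ k ∈ Finset.range N,
      (C (algebraMap ℤ_[p] S (lc p k)) * w ^ k).map ψ.toRingHom =
        C (algebraMap ℤ_[p] S' (lc p k)) * (w.map ψ.toRingHom) ^ k := by
    intro k _
    rw [Polynomial.map_mul, Polynomial.map_pow, Polynomial.map_C]
    congr 2
    exact ψ.commutes _
  rw [h2, Finset.sum_congr rfl h3] at h1
  exact h1

theorem sep {K : Type} [Field K] [NumberField K] {θ : 𝓞 K} {F : ℤ[X]} (hF : F.Monic)
    (h0 : aeval θ F = 0) (hθ : IntermediateField.adjoin ℚ {(θ : K)} = ⊤)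
    (hn : Module.finrank ℚ K = F.natDegree) : (F.map (Int.castRingHom ℚ)).Separable := by
  have h1 : aeval (θ : K) (F.map (Int.castRingHom ℚ)) = 0 := by
    have e1 : aeval (θ : K) (F.map (algebraMap ℤ ℚ)) = aeval (θ : K) F :=
      Polynomial.aeval_map_algebraMap ℚ (θ : K) F
    have e2 : aeval (algebraMap (𝓞 K) K θ) F = algebraMap (𝓞 K) K (aeval θ F) :=
      Polynomial.aeval_algebraMap_apply K θ F
    rw [h0, map_zero] at e2
    exact e1.trans e2
  have hint : IsIntegral ℚ (θ : K) := Algebra.IsIntegral.isIntegral _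
  have h2 : minpoly ℚ (θ : K) = F.map (Int.castRingHom ℚ) := by
    symm
    refine Polynomial.eq_of_monic_of_dvd_of_natDegree_le (minpoly.monic hint) (hF.map _)
      (minpoly.dvd _ _ h1) ?_
    rw [hF.natDegree_map, ← hn, ← IntermediateField.adjoin.finrank hint, hθ,
      IntermediateField.finrank_top']
  rw [← h2]
  exact (minpoly.irreducible hint).separable

/-- Bezout relation at an exceptional integer -/
theorem bez (inv : InvStmt) {p : ℕ} [Fact p.Prime] {r : ℕ} {f : ℤ[X][X]} {u : Fin r → ℤ[X][X]}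
    (hf : f.Monic) {t : ℤ} (h : Exceptional p f u t) :
    (∀ i, ∃ a b : ℤ[X], sp (u i) t * a + sp f t * b = 1) ∧
      ((sp f t).map (Int.castRingHom ℚ)).Separable := by
  obtain ⟨K, _, _, θ, h0, h1, h2, h3, -, -⟩ := h
  have h4 : Module.finrank ℚ K = (sp f t).natDegree := by rw [sp_deg hf, h2]
  exact ⟨fun i => inv K θ (sp f t) (sp (u i) t) (sp_monic hf t) h0 h1 h4 (h3 i),
    sep (sp_monic hf t) h0 h1 h4⟩

/-- the evaluation homomorphism -/
theorem ev_one (evh : EvhStmt) (p : ℕ) [Fact p.Prime] (z : ℤ_[p]) (hz : ‖z‖ < 1) :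
    ∃ φ : PowerSeries ℤ_[p] →ₐ[ℤ_[p]] ℤ_[p], φ PowerSeries.X = z := by
  obtain ⟨φ, hφ⟩ := evh p Unit (fun _ => z) fun _ => hz
  exact ⟨φ, hφ ()⟩

/-- the point of an integer of the class -/
theorem ex_z (p : ℕ) [hp : Fact p.Prime] {t T₁ : ℤ} (h : (p : ℤ) ^ 3 ∣ t - T₁) :
    ∃ z : ℤ_[p], ‖z‖ < 1 ∧ (T₁ : ℤ_[p]) + (p : ℤ_[p]) ^ 2 * z = t := by
  obtain ⟨m, hm⟩ := h
  refine ⟨(p : ℤ_[p]) * m, ?_, ?_⟩
  · rw [norm_mul]
    have h1 : ‖(p : ℤ_[p])‖ < 1 := by
      rw [PadicInt.norm_p]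
      exact inv_lt_one_of_one_lt₀ (by exact_mod_cast hp.out.one_lt)
    have h2 : ‖(m : ℤ_[p])‖ ≤ 1 := PadicInt.norm_le_one _
    have h3 : 0 ≤ ‖(p : ℤ_[p])‖ := norm_nonneg _
    nlinarith
  · have h1 : t = T₁ + (p : ℤ) ^ 3 * m := by linarith
    rw [h1]
    push_cast
    ring

/-- the minors vanish at the exceptional integers -/
theorem van (cri : CriConcl) {p : ℕ} [Fact p.Prime] {n r : ℕ} {f : ℤ[X][X]}
    {u : Fin r → ℤ[X][X]} (hf : f.Monic) (hn : f.natDegree = n) {T₁ : ℤ}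
    {T : PowerSeries ℤ_[p]}
    (hT : T = PowerSeries.C (T₁ : ℤ_[p]) + (p : PowerSeries ℤ_[p]) ^ 2 * PowerSeries.X)
    {M : ℕ} (hM : 0 < M) {w b l : Fin r → (PowerSeries ℤ_[p])[X]}
    (h1 : ∀ i, spr (u i) T ^ M = 1 + C ((p : PowerSeries ℤ_[p]) ^ 2) * w i + spr f T * b i)
    (h2 : ∀ i, LogMod p (spr f T) (w i) (l i)) (h3 : ∀ i, (l i).degree < n)
    (J : Fin r → Fin n) {t : ℤ} (ht : Exceptional p f u t) {z : ℤ_[p]}
    (hz : (T₁ : ℤ_[p]) + (p : ℤ_[p]) ^ 2 * z = t)
    (ψ : PowerSeries ℤ_[p] →ₐ[ℤ_[p]] ℤ_[p]) (hψ : ψ PowerSeries.X = z) :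
    ψ (Matrix.of fun i k => (l i).coeff (J k)).det = 0 := by
  by_contra hne
  obtain ⟨K, _, _, θ, k0, k1, k2, k3, k4, k5⟩ := ht
  have hψT : ψ.toRingHom T = (t : ℤ_[p]) := by
    have e1 : ψ.toRingHom PowerSeries.X = z := hψ
    rw [hT, map_add, map_mul, map_pow, map_natCast, map_intCast, map_intCast, e1, hz]
  have hdeg : (sp f t).natDegree = n := by rw [sp_deg hf, hn]
  apply k5
  refine cri p r K θ (sp f t) (sp_monic hf t) k0 k1 (by rw [sp_deg hf, k2])
    (fun i => sp (u i) t) k3 M hM (fun i => (w i).map ψ.toRingHom)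
    (fun i => (b i).map ψ.toRingHom) (fun i => (l i).map ψ.toRingHom) ?_ ?_ ?_ k4 ?_
  · intro i
    have e1 := congrArg (Polynomial.map ψ.toRingHom) (h1 i)
    rw [Polynomial.map_pow, Polynomial.map_add, Polynomial.map_add, Polynomial.map_mul,
      Polynomial.map_mul, Polynomial.map_one, Polynomial.map_C, map_pow, map_natCast, spr_map,
      spr_map, hψT, ← sp_map, ← sp_map] at e1
    exact e1
  · intro i
    have e1 := logMod_map ψ (h2 i)
    rw [spr_map, hψT, ← sp_map] at e1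
    exact e1
  · intro i
    rw [hdeg]
    exact (degree_map_le).trans_lt (h3 i)
  · refine ⟨fun k => Fin.cast hdeg.symm (J k), ?_⟩
    have e1 : (Matrix.of fun i k => ((l i).map ψ.toRingHom).coeff
        ((Fin.cast hdeg.symm (J k) : Fin (sp f t).natDegree) : ℕ)) =
        ψ.toRingHom.mapMatrix (Matrix.of fun i k => (l i).coeff (J k)) := by
      ext i k
      rw [Matrix.of_apply, coeff_map]
      rfl
    show (Matrix.of fun i k => ((l i).map ψ.toRingHom).coeff
        ((Fin.cast hdeg.symm (J k) : Fin (sp f t).natDegree) : ℕ)).det ≠ 0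
    rw [e1, ← RingHom.map_det]
    exact hne

/-- from finite subsets -/
theorem encard_le {α : Type} {E : Set α} {k : ℕ} (h : ∀ S : Finset α, (S : Set α) ⊆ E →
    S.card ≤ k) : E.encard ≤ k := by
  by_contra hc
  have h1 : ((k + 1 : ℕ) : ℕ∞) ≤ E.encard := by
    have h2 : (k : ℕ∞) < E.encard := not_le.1 hc
    have h3 := Order.add_one_le_of_lt h2
    exact_mod_cast h3
  obtain ⟨S, hS, hSc⟩ := Set.exists_subset_encard_eq h1
  have hfin : S.Finite := Set.finite_of_encard_eq_coe hSc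
  have h2 := h hfin.toFinset (by rw [hfin.coe_toFinset]; exact hS)
  rw [hfin.encard_eq_coe_toFinset_card] at hSc
  have h3 : hfin.toFinset.card = k + 1 := by exact_mod_cast hSc
  omega

theorem clb : ClbStmt := by
  intro evh str noe inv cri nvn cla p hp n r D a T₁
  by_cases H : ∃ (f : ℤ[X][X]) (u : Fin r → ℤ[X][X]), InCls p n D a f u ∧ ∃ t : ℤ,
    (p : ℤ) ^ 3 ∣ t - T₁ ∧ ∀ i, ∃ a b : ℤ[X], sp (u i) t * a + sp f t * b = 1
  · obtain ⟨M, hM, R, _, _, g, hg⟩ := cla p n r D a T₁ H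
    choose K hK using fun J => noe p R (g J)
    refine ⟨∑ J, K J, ?_⟩
    intro f u hcls hfr
    by_cases hE : ∃ t : ℤ, (p : ℤ) ^ 3 ∣ t - T₁ ∧ Exceptional p f u t
    · obtain ⟨t₀, -, ht₀⟩ := hE
      have hf : f.Monic := hcls.1.1
      have hn : f.natDegree = n := hcls.1.2.1
      obtain ⟨hb, hs⟩ := bez inv hf ht₀
      obtain ⟨T, hT⟩ : ∃ T : PowerSeries ℤ_[p],
        T = PowerSeries.C (T₁ : ℤ_[p]) + (p : PowerSeries ℤ_[p]) ^ 2 * PowerSeries.X := ⟨_, rfl⟩
      obtain ⟨φ, w, b, l, h1, h2, h3, h4⟩ := hg f u hcls T hT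
      obtain ⟨J, hJ⟩ := nvn p r f u hf hfr t₀ hs (fun i => by
        obtain ⟨x, y, hxy⟩ := hb i
        refine ⟨y.map (Int.castRingHom ℚ), x.map (Int.castRingHom ℚ), ?_⟩
        rw [← Polynomial.map_mul, ← Polynomial.map_mul, ← Polynomial.map_add, mul_comm y,
          mul_comm x, add_comm, hxy, Polynomial.map_one]) T₁ T hT M hM w b l h1 h2
        (fun i => by rw [hn]; exact h3 i)
      obtain ⟨J', hJ'⟩ : ∃ J' : Fin r → Fin n, J' = fun k => Fin.cast hn (J k) := ⟨_, rfl⟩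
      have hdet : (Matrix.of fun i k => (l i).coeff (J' k)).det ≠ 0 := by
        rw [hJ']
        exact hJ
      have hG := h4 J'
      have hle : K J' ≤ ∑ J, K J := Finset.single_le_sum (fun _ _ => Nat.zero_le _)
        (Finset.mem_univ J')
      refine le_trans (encard_le (k := K J') ?_) (by exact_mod_cast hle)
      intro S hS
      have hS1 : ∀ t ∈ S, (p : ℤ) ^ 3 ∣ t - T₁ ∧ Exceptional p f u t := fun t ht => hS ht
      have hz : ∀ t : ℤ, ∃ z : ℤ_[p], t ∈ S →
          ‖z‖ < 1 ∧ (T₁ : ℤ_[p]) + (p : ℤ_[p]) ^ 2 * z = t := by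
        intro t
        by_cases ht : t ∈ S
        · obtain ⟨z, hz⟩ := ex_z p (hS1 t ht).1
          exact ⟨z, fun _ => hz⟩
        · exact ⟨0, fun h => absurd h ht⟩
      choose z hz using hz
      have hinj : Set.InjOn z (S : Set ℤ) := by
        intro s hs t ht hst
        have e1 := (hz s hs).2
        have e2 := (hz t ht).2
        rw [hst, e2] at e1
        exact_mod_cast e1.symm
      classical
      rw [← Finset.card_image_of_injOn hinj]
      refine str p (PowerSeries.map φ (g J')) (by rw [hG]; exact hdet) (K J') ?_ _ ?_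
      · intro k
        obtain ⟨j, hj, hj1⟩ := hK J' φ k
        refine ⟨j, hj, ?_⟩
        rw [PowerSeries.coeff_map, PowerSeries.coeff_map]
        exact hj1
      · intro x hx
        obtain ⟨t, ht, rfl⟩ := Finset.mem_image.1 hx
        refine ⟨(hz t ht).1, ?_⟩
        obtain ⟨ψ, hψ⟩ := ev_one evh p (z t) (hz t ht).1
        refine ⟨ψ, hψ, ?_⟩
        rw [hG]
        exact van cri hf hn hT hM h1 h2 h3 J' (hS1 t ht).2 (hz t ht).2 ψ hψ
    · have h0 : {t : ℤ | (p : ℤ) ^ 3 ∣ t - T₁ ∧ Exceptional p f u t} = ∅ := by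
        ext t
        constructor
        · intro ht
          exact absurd ⟨t, ht⟩ hE
        · intro ht
          exact absurd ht (Set.notMem_empty t)
      rw [h0, Set.encard_empty]
      exact zero_le
  · refine ⟨0, ?_⟩
    intro f u hcls hfr
    have h0 : {t : ℤ | (p : ℤ) ^ 3 ∣ t - T₁ ∧ Exceptional p f u t} = ∅ := by
      ext t
      constructor
      · rintro ⟨h1, h2⟩
        exact absurd ⟨f, u, hcls, t, h1, (bez inv hcls.1.1 h2).1⟩ H
      · intro ht
        exact absurd ht (Set.notMem_empty t)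
    rw [h0, Set.encard_empty]
    exact zero_le

end Pool.Agent.LUB.H31
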